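import Pool.Agent.H38.O2.Main
import Pool.Agent.H71.O2.K1

set_option autoImplicit false

/-!
K7 (helpers 93, 83, 77, 79): in a finite simple nonassociative automorphic loop in which `J` fixes
only `e`, the inner mapping `th(a, b)` fixes `b`.
-/

namespace ALoop

open Equiv

variable {Q : Type*} {G : Subgroup (Perm Q)} {L : Q → Perm Q} {J : Perm Q} {e : Q}

/-- the trick: pure group theory -/
theorem k7_trick {M : Type*} [Group M] {l r l' r' : M} (h1 : Commute l l') (h2 : Commute r r')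
    (h3 : Commute l r) (h4 : Commute l' r') (h5 : Commute (l * r) (l' * r')) :
    Commute (l * r⁻¹) (l' * r'⁻¹) := by
  obtain ⟨c, hc⟩ : ∃ c, c = r * l' * r⁻¹ * l'⁻¹ := ⟨_, rfl⟩
  obtain ⟨d, hd⟩ : ∃ d, d = r' * l * r'⁻¹ * l⁻¹ := ⟨_, rfl⟩
  have cl : Commute c l := by
    rw [hc]
    exact ((h3.symm.mul_left h1.symm).mul_left h3.symm.inv_left).mul_left h1.symm.inv_left
  have cr' : Commute c r' := by
    rw [hc]
    exact ((h2.mul_left h4).mul_left h2.inv_left).mul_left h4.inv_left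
  have dl' : Commute d l' := by
    rw [hd]
    exact ((h4.symm.mul_left h1).mul_left h4.symm.inv_left).mul_left h1.inv_left
  have dr : Commute d r := by
    rw [hd]
    exact ((h2.symm.mul_left h3).mul_left h2.symm.inv_left).mul_left h3.inv_left
  have e1 : r * l' = c * l' * r := by rw [hc]; group
  have e2 : r' * l = d * l * r' := by rw [hd]; group
  have e3 : c = d := by
    have h6 : l * r * (l' * r') = l' * r' * (l * r) := h5.eq
    have h7 : l * r * (l' * r') = c * (l * l' * (r * r')) := by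
      calc l * r * (l' * r') = l * (r * l') * r' := by group
        _ = l * (c * l' * r) * r' := by rw [e1]
        _ = (l * c) * l' * r * r' := by group
        _ = (c * l) * l' * r * r' := by rw [cl.eq]
        _ = c * (l * l' * (r * r')) := by group
    have h8 : l' * r' * (l * r) = d * (l * l' * (r * r')) := by
      calc l' * r' * (l * r) = l' * (r' * l) * r := by group
        _ = l' * (d * l * r') * r := by rw [e2]
        _ = (l' * d) * l * (r' * r) := by group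
        _ = (d * l') * l * (r' * r) := by rw [dl'.eq]
        _ = d * (l' * l) * (r' * r) := by group
        _ = d * (l * l') * (r * r') := by rw [h1.eq, h2.eq]
        _ = d * (l * l' * (r * r')) := by group
    rw [h7, h8] at h6
    exact mul_right_cancel h6
  rw [← e3] at dl' dr e2
  have f1 : r⁻¹ * l' = c⁻¹ * l' * r⁻¹ := by
    calc r⁻¹ * l' = r⁻¹ * c⁻¹ * (c * l' * r) * r⁻¹ := by group
      _ = r⁻¹ * c⁻¹ * (r * l') * r⁻¹ := by rw [e1]
      _ = r⁻¹ * (c⁻¹ * r) * l' * r⁻¹ := by group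
      _ = r⁻¹ * (r * c⁻¹) * l' * r⁻¹ := by rw [dr.inv_left.eq]
      _ = c⁻¹ * l' * r⁻¹ := by group
  have f2 : r'⁻¹ * l = c⁻¹ * l * r'⁻¹ := by
    calc r'⁻¹ * l = r'⁻¹ * c⁻¹ * (c * l * r') * r'⁻¹ := by group
      _ = r'⁻¹ * c⁻¹ * (r' * l) * r'⁻¹ := by rw [e2]
      _ = r'⁻¹ * (c⁻¹ * r') * l * r'⁻¹ := by group
      _ = r'⁻¹ * (r' * c⁻¹) * l * r'⁻¹ := by rw [cr'.inv_left.eq]
      _ = c⁻¹ * l * r'⁻¹ := by group
  have g1 : l * r⁻¹ * (l' * r'⁻¹) = c⁻¹ * (l * l' * (r⁻¹ * r'⁻¹)) := by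
    calc l * r⁻¹ * (l' * r'⁻¹) = l * (r⁻¹ * l') * r'⁻¹ := by group
      _ = l * (c⁻¹ * l' * r⁻¹) * r'⁻¹ := by rw [f1]
      _ = (l * c⁻¹) * l' * r⁻¹ * r'⁻¹ := by group
      _ = (c⁻¹ * l) * l' * r⁻¹ * r'⁻¹ := by rw [cl.inv_left.eq]
      _ = c⁻¹ * (l * l' * (r⁻¹ * r'⁻¹)) := by group
  have g2 : l' * r'⁻¹ * (l * r⁻¹) = c⁻¹ * (l * l' * (r⁻¹ * r'⁻¹)) := by
    calc l' * r'⁻¹ * (l * r⁻¹) = l' * (r'⁻¹ * l) * r⁻¹ := by group
      _ = l' * (c⁻¹ * l * r'⁻¹) * r⁻¹ := by rw [f2]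
      _ = (l' * c⁻¹) * l * (r'⁻¹ * r⁻¹) := by group
      _ = (c⁻¹ * l') * l * (r'⁻¹ * r⁻¹) := by rw [dl'.inv_left.eq]
      _ = c⁻¹ * (l' * l) * (r'⁻¹ * r⁻¹) := by group
      _ = c⁻¹ * (l * l') * (r⁻¹ * r'⁻¹) := by rw [h1.eq, (h2.inv_left.inv_right).eq]
      _ = c⁻¹ * (l * l' * (r⁻¹ * r'⁻¹)) := by group
  show l * r⁻¹ * (l' * r'⁻¹) = l' * r'⁻¹ * (l * r⁻¹)
  rw [g1, g2]

namespace AL0

/-- step (1)-(3): the data of `th(a, b)` -/
theorem k7_data (h : AL0 G L J e) (a b : Q) :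
    Commute (Th L J a b) ((L b)⁻¹ * Th L J a b * L b) ∧
    Commute ((L b)⁻¹ * Th L J a b * L b) (J * ((L b)⁻¹ * Th L J a b * L b) * J) ∧
    Commute (Th L J a b) (J * ((L b)⁻¹ * Th L J a b * L b) * J) ∧
    ((L b)⁻¹ * Th L J a b * L b) * (J * ((L b)⁻¹ * Th L J a b * L b) * J) =
      (Tx L J b)⁻¹ * Th L J a b * Tx L J b * Th L J a b ∧
    ((L b)⁻¹ * Th L J a b * L b * (Th L J a b)⁻¹) *
      (J * ((L b)⁻¹ * Th L J a b * L b * (Th L J a b)⁻¹) * J)⁻¹ =
      D L J ((L b)⁻¹ (Th L J a b b)) * J := by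
  have hJJ := h.JJ1
  have hK1 := h.K1 a b
  have hth : (Th L J a b)⁻¹ = (Rt L J b)⁻¹ * (L a)⁻¹ * Rt L J b * L a := by unfold Th; group
  have hth' : (Th L J a (J b))⁻¹ = (Rt L J (J b))⁻¹ * (L a)⁻¹ * Rt L J (J b) * L a := by
    unfold Th; group
  have htG := h.Th_mem a b
  have hte := h.Th_e a b
  have htJ := h.comJ _ htG hte
  have htinv : ∀ x, Th L J a b * L x * (Th L J a b)⁻¹ = L (Th L J a b x) :=
    h.equi _ htG hte
  obtain ⟨t, ht⟩ : ∃ t, t = Th L J a b := ⟨_, rfl⟩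
  rw [← ht] at hK1 hth htG hte htJ htinv ⊢
  obtain ⟨T, hT⟩ : ∃ T, T = Tx L J b := ⟨_, rfl⟩
  have hTe : T e = e := by rw [hT]; exact h.Tx_e b
  have hTG : T ∈ G := by rw [hT]; exact h.Tx_mem b
  have hTJ := h.comJ _ hTG hTe
  have hLT : L b = T * Rt L J b := by rw [hT]; exact h.L_eq b
  have hTR : T * Rt L J b = Rt L J b * T := by rw [hT]; exact h.Tx_R b
  rw [← hT] at hK1 ⊢
  have hKi : (Th L J a (J b))⁻¹ = T⁻¹ * t * T := by
    calc (Th L J a (J b))⁻¹ = T⁻¹ * (T * (Th L J a (J b))⁻¹) := by group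
      _ = T⁻¹ * (t * T) := by rw [hK1]
      _ = _ := by group
  obtain ⟨R, hR⟩ : ∃ R, R = Rt L J b := ⟨_, rfl⟩
  obtain ⟨R', hR'⟩ : ∃ R', R' = Rt L J (J b) := ⟨_, rfl⟩
  have hRR : R * R' = R' * R := by rw [hR, hR']; exact h.RRJ b
  obtain ⟨z, hz⟩ : ∃ z, z = (L b)⁻¹ * t * L b := ⟨_, rfl⟩
  obtain ⟨y, hy⟩ : ∃ y, y = J * z * J := ⟨_, rfl⟩
  rw [← hz, ← hy]
  have hyR : y = R'⁻¹ * t * R' := by
    have h1 : J * (L b)⁻¹ * J = R'⁻¹ := by
      rw [hR', ← h.JLJ b, mul_inv_rev, mul_inv_rev, h.Jinv]; group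
    rw [hy, hz]
    calc J * ((L b)⁻¹ * t * L b) * J = J * (L b)⁻¹ * 1 * t * L b * J := by group
      _ = J * (L b)⁻¹ * (J * J) * t * L b * J := by rw [hJJ]
      _ = (J * (L b)⁻¹ * J) * (J * t) * L b * J := by group
      _ = (J * (L b)⁻¹ * J) * (t * J) * L b * J := by rw [htJ]
      _ = (J * (L b)⁻¹ * J) * t * (J * L b * J) := by group
      _ = R'⁻¹ * t * R' := by rw [h1, h.JLJ b, ← hR']
  rw [← hR] at hth hLT hTR
  rw [← hR'] at hth'
  -- `L_a⁻¹ R_b L_a = R t⁻¹` and `L_a⁻¹ R' L_a = R' T⁻¹ t T`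
  have a1 : (L a)⁻¹ * R * L a = R * t⁻¹ := by rw [hth]; group
  have a2 : (L a)⁻¹ * R' * L a = R' * (T⁻¹ * t * T) := by rw [← hKi, hth']; group
  have a3 : (L a)⁻¹ * (R * R') * L a = R * R' * (y⁻¹ * (T⁻¹ * t * T)) := by
    calc (L a)⁻¹ * (R * R') * L a = ((L a)⁻¹ * R * L a) * ((L a)⁻¹ * R' * L a) := by group
      _ = R * t⁻¹ * (R' * (T⁻¹ * t * T)) := by rw [a1, a2]
      _ = R * R' * ((R'⁻¹ * t * R')⁻¹ * (T⁻¹ * t * T)) := by group
      _ = _ := by rw [hyR]
  have hzR : z = (T * R)⁻¹ * t * (T * R) := by rw [hz, hLT]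
  have a4 : (L a)⁻¹ * (R' * R) * L a = R' * R * (z * t⁻¹) := by
    calc (L a)⁻¹ * (R' * R) * L a = ((L a)⁻¹ * R' * L a) * ((L a)⁻¹ * R * L a) := by group
      _ = R' * (T⁻¹ * t * T) * (R * t⁻¹) := by rw [a1, a2]
      _ = R' * R * ((T * R)⁻¹ * t * (T * R) * t⁻¹) := by group
      _ = _ := by rw [hzR]
  -- (i)
  have i1 : y⁻¹ * (T⁻¹ * t * T) = z * t⁻¹ := by
    rw [hRR, a4] at a3
    exact (mul_left_cancel a3).symm
  have hyz : J * y * J = z := by
    rw [hy]
    calc J * (J * z * J) * J = (J * J) * z * (J * J) := by group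
      _ = z := by rw [hJJ]; group
  have hJT : J * (T⁻¹ * t * T) * J = T⁻¹ * t * T := by
    have h1 : J * T⁻¹ = T⁻¹ * J := by
      have : Commute T J := hTJ
      exact this.inv_left.eq.symm
    calc J * (T⁻¹ * t * T) * J = (J * T⁻¹) * t * (T * J) := by group
      _ = T⁻¹ * J * t * (J * T) := by rw [h1, hTJ]
      _ = T⁻¹ * (J * t) * J * T := by group
      _ = T⁻¹ * (t * J) * J * T := by rw [htJ]
      _ = T⁻¹ * t * (J * J) * T := by group
      _ = _ := by rw [hJJ]; group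
  have hJconj : ∀ p q : Perm Q, J * (p * q) * J = (J * p * J) * (J * q * J) := by
    intro p q
    calc J * (p * q) * J = J * p * 1 * q * J := by group
      _ = J * p * (J * J) * q * J := by rw [hJJ]
      _ = _ := by group
  have hJinvc : ∀ p : Perm Q, J * p⁻¹ * J = (J * p * J)⁻¹ := by
    intro p
    rw [mul_inv_rev, mul_inv_rev, h.Jinv]; group
  have hJt : J * t * J = t := by
    rw [← htJ, mul_assoc, hJJ, mul_one]
  have i2 : z⁻¹ * (T⁻¹ * t * T) = y * t⁻¹ := by
    have h1 : J * (y⁻¹ * (T⁻¹ * t * T)) * J = J * (z * t⁻¹) * J := by rw [i1]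
    rw [hJconj y⁻¹ (T⁻¹ * t * T), hJinvc y, hyz, hJT, hJconj z t⁻¹, hJinvc t, hJt, ← hy] at h1
    exact h1
  have i3 : z * y = y * z := by
    have h1 : T⁻¹ * t * T = y * (z * t⁻¹) := by rw [← i1]; group
    have h2 : T⁻¹ * t * T = z * (y * t⁻¹) := by rw [← i2]; group
    have h3 : z * (y * t⁻¹) = y * (z * t⁻¹) := by rw [← h2, h1]
    calc z * y = z * (y * t⁻¹) * t := by group
      _ = y * (z * t⁻¹) * t := by rw [h3]
      _ = y * z := by group
  have i4 : z * y = T⁻¹ * t * T * t := by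
    have h1 : T⁻¹ * t * T = y * (z * t⁻¹) := by rw [← i1]; group
    rw [h1, i3]; group
  -- (2)
  obtain ⟨l, hl⟩ : ∃ l, l = z * t⁻¹ := ⟨_, rfl⟩
  obtain ⟨u, hu⟩ : ∃ u, u = (L b)⁻¹ (t b) := ⟨_, rfl⟩
  have hbu : L b u = t b := by rw [hu, apply_inv']
  have hl1 : l = (L b)⁻¹ * L (t b) := by
    rw [hl, hz, ← htinv b]; group
  have hle : l e = u := by
    rw [hl1, Perm.mul_apply, h.Le, hu]
  have hmuG : R * R' ∈ G := by rw [hR, hR']; exact G.mul_mem (h.memR _) (h.memR _)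
  have hmue : (R * R') e = e := by
    rw [Perm.mul_apply, hR, hR', h.Rt_e, h.Rt_app, h.JL]
  obtain ⟨a', ha'⟩ : ∃ a', a' = (R * R')⁻¹ a := ⟨_, rfl⟩
  have haa' : (R * R') a' = a := by rw [ha', apply_inv']
  have hl2 : l = (L a')⁻¹ * L a := by
    have h1 := h.equi _ (G.inv_mem hmuG) (by rw [Perm.inv_eq_iff_eq, hmue]) a
    rw [inv_inv, ← ha'] at h1
    have h2 : R * R' * (z * t⁻¹) = (L a)⁻¹ * (R * R') * L a := by rw [a3, i1]
    rw [hl]
    calc z * t⁻¹ = (R * R')⁻¹ * (R * R' * (z * t⁻¹)) := by group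
      _ = (R * R')⁻¹ * ((L a)⁻¹ * (R * R') * L a) := by rw [h2]
      _ = ((R * R')⁻¹ * L a * (R * R'))⁻¹ * L a := by group
      _ = _ := by rw [h1]
  have ha'u : L a' u = a := by
    rw [← hle, hl2, Perm.mul_apply, h.Le, apply_inv']
  obtain ⟨k, hk⟩ : ∃ k, k = l⁻¹ * L u := ⟨_, rfl⟩
  have hkG : k ∈ G := by
    rw [hk, hl1]
    exact G.mul_mem (G.inv_mem (G.mul_mem (G.inv_mem (h.memL _)) (h.memL _))) (h.memL _)
  have hke : k e = e := by
    rw [hk, Perm.mul_apply, h.Le, Perm.inv_eq_iff_eq, hle]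
  have hflex : ∀ x w, L x (L w x) = L (L x w) x := by
    intro x w
    have h1 := congrArg (fun f : Perm Q => f w) (h.flex x)
    simp only [Perm.mul_apply] at h1
    rw [h.Rt_app, h.Rt_app] at h1
    exact h1
  have hkb : k b = b := by
    have h1 : k = (L (L b u))⁻¹ * L b * L u := by
      rw [hk, hl1, hbu]; group
    rw [h1]
    simp only [Perm.mul_apply]
    rw [Perm.inv_eq_iff_eq, hflex]
  have hka' : k a' = a' := by
    have h1 : k = (L (L a' u))⁻¹ * L a' * L u := by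
      rw [hk, hl2, ha'u]; group
    rw [h1]
    simp only [Perm.mul_apply]
    rw [Perm.inv_eq_iff_eq, hflex]
  have hkJb : k (J b) = J b := h.fixJ hkG hke hkb
  have ckR : k * R = R * k := by rw [hR]; exact h.comR hkG hke hkb
  have ckR' : k * R' = R' * k := by rw [hR']; exact h.comR hkG hke hkJb
  have hka : k a = a := by
    have h1 : k * (R * R') = (R * R') * k := by
      calc k * (R * R') = (k * R) * R' := by group
        _ = R * (k * R') := by rw [ckR]; group
        _ = _ := by rw [ckR']; group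
    calc k a = (k * (R * R')) a' := by rw [Perm.mul_apply, haa']
      _ = (R * R') (k a') := by rw [h1, Perm.mul_apply]
      _ = a := by rw [hka', haa']
  have ckLa : Commute k (L a) := h.comL hkG hke hka
  have ckRb : Commute k (Rt L J b) := h.comR hkG hke hkb
  have ckLb : Commute k (L b) := h.comL hkG hke hkb
  have ckt : Commute k t := by
    rw [ht]
    unfold Th
    exact ((ckLa.inv_right.mul_right ckRb.inv_right).mul_right ckLa).mul_right ckRb
  have hktb : k (t b) = t b := by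
    have h1 := congrArg (fun f : Perm Q => f b) ckt.eq
    simp only [Perm.mul_apply] at h1
    rw [h1, hkb]
  have hku : k u = u := by
    have h1 := congrArg (fun f : Perm Q => f u) ckLb.eq
    simp only [Perm.mul_apply] at h1
    rw [hbu, hktb] at h1
    apply (L b).injective
    rw [← h1, hbu]
  have ckLu : Commute k (L u) := h.comL hkG hke hku
  have ckRu : Commute k (Rt L J (J u)) := h.comR hkG hke (h.fixJ hkG hke hku)
  have hlu : l = L u * k⁻¹ := by rw [hk]; group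
  have hz2 : z = L u * k⁻¹ * t := by rw [← hlu, hl]; group
  have hJk : J * k * J = k := by
    have := h.comJ k hkG hke
    rw [← this, mul_assoc, hJJ, mul_one]
  have hy2 : y = Rt L J (J u) * k⁻¹ * t := by
    rw [hy, hz2, hJconj, hJconj, hJinvc, hJk, hJt, h.JLJ]
  -- (3) `t u = u`
  have hktu : k (t u) = t u := by
    have h1 := congrArg (fun f : Perm Q => f u) ckt.eq
    simp only [Perm.mul_apply] at h1
    rw [h1, hku]
  have htu : t u = u := by
    have h1 : y * z = T⁻¹ * t * T * t := by rw [← i3, i4]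
    have h2 : (y * z) e = e := by
      rw [h1]
      simp only [Perm.mul_apply]
      rw [hte, hTe, hte, Perm.inv_eq_iff_eq, hTe]
    have hkie : k⁻¹ e = e := by rw [Perm.inv_eq_iff_eq, hke]
    rw [hy2, hz2] at h2
    simp only [Perm.mul_apply] at h2
    rw [hte, hkie, h.Le] at h2
    have h3 : k⁻¹ (t u) = t u := by rw [Perm.inv_eq_iff_eq, hktu]
    rw [h3, h.Rt_app] at h2
    -- `t u * u⁻¹ = e`
    have h4 : L (t u) (J (t u)) = e := h.LJ _
    have h5 : J u = J (t u) := (L (t u)).injective (by rw [h2, h4])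
    have h6 := congrArg (fun q => J q) h5
    rw [h.JJ, h.JJ] at h6
    exact h6.symm
  have ctLu : Commute t (L u) := h.comL htG hte htu
  have ctRu : Commute t (Rt L J (J u)) := h.comR htG hte (h.fixJ htG hte htu)
  have ctz : Commute t z := by
    rw [hz2]
    exact (ctLu.mul_right ckt.symm.inv_right).mul_right (Commute.refl t)
  have cty : Commute t y := by
    rw [hy2]
    exact (ctRu.mul_right ckt.symm.inv_right).mul_right (Commute.refl t)
  refine ⟨ctz, i3, cty, i4, ?_⟩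
  have hl3 : z * t⁻¹ = L u * k⁻¹ := by rw [← hl, hlu]
  rw [← hu, hl3, hJconj, hJinvc, hJk, h.JLJ, mul_inv_rev, inv_inv]
  unfold D
  have h7 : J * (L u)⁻¹ * J = (Rt L J (J u))⁻¹ := by
    rw [hJinvc, h.JLJ]
  calc L u * k⁻¹ * (k * (Rt L J (J u))⁻¹) = L u * (Rt L J (J u))⁻¹ := by group
    _ = L u * (J * (L u)⁻¹ * J) := by rw [h7]
    _ = L u * J * (L u)⁻¹ * J := by group

end AL0

namespace AL

/-- K7: if `T_(th b) T_b⁻¹` commutes with its conjugates under all reflections, then `th(a, b)` fixes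
`b` -/
theorem K7_of [Finite Q] (h : AL G L J e) (hna : ¬ Assoc L) (hfix : ∀ x, J x = x → x = e)
    (heta : ∀ a b q, Commute (Tx L J (Th L J a b b) * (Tx L J b)⁻¹)
      (D L J q * (Tx L J (Th L J a b b) * (Tx L J b)⁻¹) * D L J q)) (a b : Q) :
    Th L J a b b = b := by
  have h0 := h.al0
  have hJJ := h.JJ1
  obtain ⟨ctz, czy, cty, hzy, hP⟩ := h0.k7_data a b
  have htG := h0.Th_mem a b
  have hte := h0.Th_e a b
  have htJ := h.comJ _ htG hte
  have htinv : ∀ x, Th L J a b * L x * (Th L J a b)⁻¹ = L (Th L J a b x) :=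
    h.equi _ htG hte
  have heta' := fun q => heta a b q
  have hTG := h0.Tx_mem b
  have hTe := h0.Tx_e b
  have hTt : Tx L J (Th L J a b b) = Th L J a b * Tx L J b * (Th L J a b)⁻¹ := by
    unfold Tx Rt
    have h1 := htinv b
    have h2 := htinv (J b)
    have h3 : Th L J a b (J b) = J (Th L J a b b) := by
      have := congrArg (fun f : Perm Q => f b) htJ
      simpa only [Perm.mul_apply] using this
    rw [h3] at h2
    rw [← h1, ← h2]
    have h4 : J * Th L J a b = Th L J a b * J := htJ.symm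
    have h5 : J * (Th L J a b * L (J b) * (Th L J a b)⁻¹) * J =
        Th L J a b * (J * L (J b) * J) * (Th L J a b)⁻¹ := by
      calc J * (Th L J a b * L (J b) * (Th L J a b)⁻¹) * J =
          (J * Th L J a b) * L (J b) * ((Th L J a b)⁻¹ * J) := by group
        _ = (Th L J a b * J) * L (J b) * (J * (Th L J a b)⁻¹) := by
          rw [h4, ((show Commute (Th L J a b) J from htJ).inv_left).eq]
        _ = _ := by group
    rw [h5]; group
  obtain ⟨t, ht⟩ : ∃ t, t = Th L J a b := ⟨_, rfl⟩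
  rw [← ht] at ctz czy cty hzy hP htG hte htJ htinv heta' hTt ⊢
  obtain ⟨T, hT⟩ : ∃ T, T = Tx L J b := ⟨_, rfl⟩
  rw [← hT] at hzy heta' hTG hTe hTt
  obtain ⟨z, hz⟩ : ∃ z, z = (L b)⁻¹ * t * L b := ⟨_, rfl⟩
  rw [← hz] at ctz czy cty hzy hP
  obtain ⟨y, hy⟩ : ∃ y, y = J * z * J := ⟨_, rfl⟩
  rw [← hy] at czy cty hzy
  obtain ⟨l, hl⟩ : ∃ l, l = z * t⁻¹ := ⟨_, rfl⟩
  obtain ⟨r, hr⟩ : ∃ r, r = y * t⁻¹ := ⟨_, rfl⟩
  obtain ⟨u, hu⟩ : ∃ u, u = (L b)⁻¹ (t b) := ⟨_, rfl⟩
  have hJt : J * t * J = t := by rw [← htJ, mul_assoc, hJJ, mul_one]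
  have hJconj : ∀ p q : Perm Q, J * (p * q) * J = (J * p * J) * (J * q * J) := by
    intro p q
    calc J * (p * q) * J = J * p * 1 * q * J := by group
      _ = J * p * (J * J) * q * J := by rw [hJJ]
      _ = _ := by group
  have hJinvc : ∀ p : Perm Q, J * p⁻¹ * J = (J * p * J)⁻¹ := by
    intro p
    rw [mul_inv_rev, mul_inv_rev, h.Jinv]; group
  have hrl : J * l * J = r := by rw [hl, hJconj, hJinvc, hJt, ← hy, hr]
  have clr : Commute l r := by
    rw [hl, hr]
    have c1 : Commute z (y * t⁻¹) := czy.mul_right ctz.symm.inv_right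
    have c2 : Commute t⁻¹ (y * t⁻¹) := (cty.inv_left).mul_right (Commute.refl t).inv_left.inv_right
    exact c1.mul_left c2
  have hl1 : l = (L b)⁻¹ * L (t b) := by
    rw [hl, hz, ← htinv b]; group
  -- line homomorphism
  have hDb : ∀ j : ℕ, D L J ((t ^ j) b) = (t * (D L J b * t * D L J b)⁻¹) ^ j * D L J b := by
    intro j
    have hDD := h.D_sq b
    have hDi : (D L J b)⁻¹ = D L J b := inv_eq_of_mul_eq_one_left hDD
    have c1 : Commute t (D L J b * t * D L J b) := by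
      have h1 : D L J b * t * D L J b = L b * y * (L b)⁻¹ := by
        rw [hy, hz]; unfold D; group
      have h2 : t = L b * z * (L b)⁻¹ := by rw [hz]; group
      rw [h1]
      nth_rewrite 1 [h2]
      show L b * z * (L b)⁻¹ * (L b * y * (L b)⁻¹) = L b * y * (L b)⁻¹ * (L b * z * (L b)⁻¹)
      calc L b * z * (L b)⁻¹ * (L b * y * (L b)⁻¹) = L b * (z * y) * (L b)⁻¹ := by group
        _ = L b * (y * z) * (L b)⁻¹ := by rw [czy.eq]
        _ = _ := by group
    have h1 := h.D_conj (G.pow_mem htG j) b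
    rw [← h1, c1.inv_right.mul_pow]
    have h2 : (D L J b * t * D L J b)⁻¹ ^ j = D L J b * (t ^ j)⁻¹ * D L J b := by
      have h3 : (D L J b * t * D L J b)⁻¹ = D L J b * t⁻¹ * (D L J b)⁻¹ := by
        rw [mul_inv_rev, mul_inv_rev, hDi]; group
      rw [h3, conj_pow, hDi, inv_pow]
    rw [h2]
    calc t ^ j * D L J b * (t ^ j)⁻¹ = t ^ j * D L J b * (t ^ j)⁻¹ * (D L J b * D L J b) := by
          rw [hDD, mul_one]
      _ = _ := by group
  have hLb : ∀ j : ℕ, L ((t ^ j) b) = L b * l ^ j := by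
    intro j
    have h1 := h.equi _ (G.pow_mem htG j) (by
      have : ∀ j : ℕ, (t ^ j) e = e := by
        intro j
        induction j with
        | zero => rfl
        | succ n ih => rw [pow_succ, Perm.mul_apply, hte, ih]
      exact this j) b
    rw [← h1, hl, ctz.symm.inv_right.mul_pow, inv_pow]
    have h2 : z ^ j = (L b)⁻¹ * t ^ j * L b := by
      rw [hz]
      have h3 := conj_pow (i := j) (a := (L b)⁻¹) (b := t)
      rw [inv_inv] at h3
      exact h3
    rw [h2]; group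
  have hgood : ∀ q, Commute l (D L J q * l * D L J q) := by
    intro q
    have hlG : ∀ j : ℕ, L b * l ^ j ∈ G := by
      intro j
      rw [← hLb j]; exact h.memL _
    obtain ⟨F, hF⟩ : ∃ F, F = D L J q := ⟨_, rfl⟩
    have hFF : F * F = 1 := by rw [hF]; exact h.D_sq q
    have hDD := h.D_sq b
    have key : ∀ j : ℕ, l ^ j * F * (l ^ j)⁻¹ * F =
        (L b)⁻¹ * Rt L J q * (t * (D L J b * t * D L J b)⁻¹) ^ j * (Rt L J q)⁻¹ * L b := by
      intro j
      have h1 : D L J (L ((t ^ j) b) q) =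
          Rt L J q * ((t * (D L J b * t * D L J b)⁻¹) ^ j * D L J b) * (Rt L J q)⁻¹ := by
        rw [← hDb j, h.D_conj (h0.memR q), h0.Rt_app]
      have h2 : D L J (L ((t ^ j) b) q) = (L b * l ^ j) * F * (L b * l ^ j)⁻¹ := by
        rw [hF, h.D_conj (hlG j), hLb j]
      have h3 : L b * F * (L b)⁻¹ = Rt L J q * D L J b * (Rt L J q)⁻¹ := by
        rw [hF, h.D_conj (h.memL b), h.D_conj (h0.memR q), h0.Rt_app]
      have h4 : F = (L b)⁻¹ * (Rt L J q * D L J b * (Rt L J q)⁻¹) * L b := by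
        rw [← h3]; group
      have h5 : l ^ j * F * (l ^ j)⁻¹ =
          (L b)⁻¹ * (Rt L J q * ((t * (D L J b * t * D L J b)⁻¹) ^ j * D L J b) *
            (Rt L J q)⁻¹) * L b := by
        rw [← h1, h2]; group
      rw [h5]
      nth_rewrite 1 [h4]
      calc (L b)⁻¹ * (Rt L J q * ((t * (D L J b * t * D L J b)⁻¹) ^ j * D L J b) *
            (Rt L J q)⁻¹) * L b * ((L b)⁻¹ * (Rt L J q * D L J b * (Rt L J q)⁻¹) * L b) =
          (L b)⁻¹ * Rt L J q * (t * (D L J b * t * D L J b)⁻¹) ^ j * (D L J b * D L J b) *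
            (Rt L J q)⁻¹ * L b := by group
        _ = _ := by rw [hDD]; group
    have k1 := key 1
    have k2 := key 2
    rw [pow_one, pow_one] at k1
    have k3 : l ^ 2 * F * (l ^ 2)⁻¹ * F = (l * F * l⁻¹ * F) * (l * F * l⁻¹ * F) := by
      generalize t * (D L J b * t * D L J b)⁻¹ = s at k1 k2
      rw [k2, k1, pow_two]; group
    have k4 : l * F * l⁻¹ * F = F * l⁻¹ * F * l := by
      have k5 : l * (l * F * l⁻¹ * l⁻¹ * F) = l * (F * l⁻¹ * F * l * F * l⁻¹ * F) := by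
        calc l * (l * F * l⁻¹ * l⁻¹ * F) = l ^ 2 * F * (l ^ 2)⁻¹ * F := by
              rw [pow_two, mul_inv_rev]; simp only [mul_assoc]
          _ = (l * F * l⁻¹ * F) * (l * F * l⁻¹ * F) := k3
          _ = _ := by group
      have k6 := mul_left_cancel k5
      have k9 : (l * F * l⁻¹ * l⁻¹ * F) * (F * l * F) = l * F * l⁻¹ * F := by
        have : (l * F * l⁻¹ * l⁻¹ * F) * (F * l * F) = l * F * l⁻¹ * l⁻¹ * (F * F) * l * F := by
          simp only [mul_assoc]
        rw [this, hFF]; group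
      have k10 : (F * l⁻¹ * F * l * F * l⁻¹ * F) * (F * l * F) = F * l⁻¹ * F * l := by
        have : (F * l⁻¹ * F * l * F * l⁻¹ * F) * (F * l * F) =
            F * l⁻¹ * F * l * (F * (l⁻¹ * ((F * F) * l)) * F) := by
          simp only [mul_assoc]
        rw [this, hFF, one_mul, inv_mul_cancel, mul_one, hFF, mul_one]
      rw [← k9, k6, k10]
    have k7 : Commute l (F * l⁻¹ * F) := by
      show l * (F * l⁻¹ * F) = F * l⁻¹ * F * l
      rw [← k4]; group
    have k8 : (F * l⁻¹ * F)⁻¹ = F * l * F := by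
      rw [mul_inv_rev, mul_inv_rev, inv_inv, inv_eq_of_mul_eq_one_left hFF]; group
    rw [← hF, ← k8]
    exact k7.inv_right
  have hgood' : ∀ q, Commute r (D L J q * r * D L J q) := by
    intro q
    have h1 := hgood (J q)
    rw [← h.D_J q] at h1
    have h2 : J * (J * D L J q * J * l * (J * D L J q * J)) * J = D L J q * r * D L J q := by
      rw [← hrl]
      calc J * (J * D L J q * J * l * (J * D L J q * J)) * J =
          (J * J) * D L J q * (J * l * J) * D L J q * (J * J) := by group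
        _ = _ := by rw [hJJ]; group
    show r * (D L J q * r * D L J q) = (D L J q * r * D L J q) * r
    rw [← h2, ← hrl, ← hJconj, ← hJconj, h1.eq]
  have htau : l * r = T⁻¹ * (Tx L J (t b) * T⁻¹) * T := by
    rw [hTt, hl, hr]
    have h1 : z * t⁻¹ * (y * t⁻¹) = z * y * t⁻¹ * t⁻¹ := by
      calc z * t⁻¹ * (y * t⁻¹) = z * (t⁻¹ * y) * t⁻¹ := by group
        _ = z * (y * t⁻¹) * t⁻¹ := by rw [cty.inv_left.eq]
        _ = _ := by group
    rw [h1, hzy]; group
  have htauc : ∀ q, Commute (l * r) (D L J q * (l * r) * D L J q) := by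
    intro q
    have h1 := heta' (T q)
    have h2 : D L J (T q) = T * D L J q * T⁻¹ := (h.D_conj hTG q).symm
    rw [h2] at h1
    rw [htau]
    have h3 : D L J q * (T⁻¹ * (Tx L J (t b) * T⁻¹) * T) * D L J q =
        T⁻¹ * (T * D L J q * T⁻¹ * (Tx L J (t b) * T⁻¹) * (T * D L J q * T⁻¹)) * T := by
      group
    rw [h3]
    show T⁻¹ * (Tx L J (t b) * T⁻¹) * T * (T⁻¹ * (T * D L J q * T⁻¹ * (Tx L J (t b) * T⁻¹) *
      (T * D L J q * T⁻¹)) * T) = T⁻¹ * (T * D L J q * T⁻¹ * (Tx L J (t b) * T⁻¹) *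
      (T * D L J q * T⁻¹)) * T * (T⁻¹ * (Tx L J (t b) * T⁻¹) * T)
    have h4 := h1.eq
    calc T⁻¹ * (Tx L J (t b) * T⁻¹) * T * (T⁻¹ * (T * D L J q * T⁻¹ * (Tx L J (t b) * T⁻¹) *
          (T * D L J q * T⁻¹)) * T) =
        T⁻¹ * ((Tx L J (t b) * T⁻¹) * (T * D L J q * T⁻¹ * (Tx L J (t b) * T⁻¹) *
          (T * D L J q * T⁻¹))) * T := by group
      _ = T⁻¹ * ((T * D L J q * T⁻¹ * (Tx L J (t b) * T⁻¹) *
          (T * D L J q * T⁻¹)) * (Tx L J (t b) * T⁻¹)) * T := by rw [h4]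
      _ = _ := by group
  have hPc : ∀ q, Commute (l * r⁻¹) (D L J q * (l * r⁻¹) * D L J q) := by
    intro q
    have hDD := h.D_sq q
    have hDi : (D L J q)⁻¹ = D L J q := inv_eq_of_mul_eq_one_left hDD
    have hcj : ∀ p p' : Perm Q, D L J q * (p * p') * D L J q =
        (D L J q * p * D L J q) * (D L J q * p' * D L J q) := by
      intro p p'
      calc D L J q * (p * p') * D L J q = D L J q * p * 1 * p' * D L J q := by group
        _ = D L J q * p * (D L J q * D L J q) * p' * D L J q := by rw [hDD]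
        _ = _ := by group
    have hcji : D L J q * r⁻¹ * D L J q = (D L J q * r * D L J q)⁻¹ := by
      rw [mul_inv_rev, mul_inv_rev, hDi]; group
    have h1 := k7_trick (hgood q) (hgood' q) clr (by
      show (D L J q * l * D L J q) * (D L J q * r * D L J q) =
        (D L J q * r * D L J q) * (D L J q * l * D L J q)
      rw [← hcj, ← hcj, clr.eq]) (by
      rw [← hcj]; exact htauc q)
    rw [hcj, hcji]
    exact h1
  have hPD : l * r⁻¹ = D L J u * J := by
    rw [← hrl, hl, hu]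
    exact hP
  obtain ⟨n, hn, hnd⟩ := h.odd_DD hfix u e
  rw [h.D_e, ← hPD] at hnd
  have hPG : l * r⁻¹ ∈ G := by
    have h1 := h.D_mul_mem u e
    rw [h.D_e, ← hPD] at h1
    exact h1
  have hP1 : l * r⁻¹ = 1 := by
    refine h.close hna hPG hn hnd (r := e) ?_ (fun q => (hPc q).eq)
    rw [h.D_e, hPD]
    have hDD := h.D_sq u
    rw [mul_inv_rev, h.Jinv, inv_eq_of_mul_eq_one_left hDD]
    calc J * (D L J u * J) * J = J * D L J u * (J * J) := by group
      _ = J * D L J u := by rw [hJJ, mul_one]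
  have hue : u = e := by
    apply h.D_inj
    rw [h.D_e]
    calc D L J u = D L J u * (J * J) := by rw [hJJ, mul_one]
      _ = (l * r⁻¹) * J := by rw [hPD]; group
      _ = J := by rw [hP1, one_mul]
  have h9 : L b u = t b := by rw [hu, apply_inv']
  rw [hue, h.Le] at h9
  exact h9.symm

end AL

end ALoop
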